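import Pool.Agent.H606.AV.Stm6
import Pool.Agent.H466.LD.L13

/-!
# Few zeros off the line, many zeros on it (`S_OFF` of project LF of helper606)

The proof is the second half of `few_off` of `Pool/Agent/H466/LD/L13.lean` and `line_many` of
`Pool/Agent/H466/LD/L16.lean`.
-/

set_option autoImplicit false

open Complex MeasureTheory Filter Topology Set Metric

namespace Pool.Agent.H788.AV

open Pool.Agent.H466.LD

/-- many zeros on the line -/
theorem off_line {F : ℂ → ℂ} {ℒ r ε ε' : ℝ} (hℒ : 1 ≤ ℒ) (hr : 0 < r)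
    (hε'1 : ε' ≤ 1) (hε'2 : ε' ≤ ε / 2) (hrε : r ≤ ε / 8) (hr1 : r ≤ 1 / 20)
    (hτ : ∀ τ : ℝ, |τ| ≤ 2 →
      ∃ S : Finset ℝ, (∀ y ∈ S, τ - r < y ∧ y < τ + r ∧ F ((y : ℂ) * I) = 0) ∧
        (1 - ε') * (2 * ℒ * r / Real.pi) ≤ (S.card : ℝ)) :
    ∃ S : Finset ℝ, (∀ y ∈ S, -(1 / 4) < y ∧ y < 1 / 4 ∧ F ((y : ℂ) * I) = 0) ∧
      (1 - ε) * (ℒ / (2 * Real.pi)) ≤ (S.card : ℝ) := by
  have hπ := Real.pi_pos
  set N : ℕ := ⌊1 / (4 * r)⌋₊ with hN
  have hN1 : (N : ℝ) ≤ 1 / (4 * r) := Nat.floor_le (by positivity)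
  have hN2 : 1 / (4 * r) < (N : ℝ) + 1 := Nat.lt_floor_add_one _
  have hN1' : (N : ℝ) * (4 * r) ≤ 1 := by rwa [le_div_iff₀ (by positivity)] at hN1
  have hN2' : 1 < ((N : ℝ) + 1) * (4 * r) := by rwa [div_lt_iff₀ (by positivity)] at hN2
  obtain ⟨L, hL1, hL2⟩ := collect (Q := fun y => F ((y : ℂ) * I) = 0) (T := -(1 / 4)) (r := r)
    (n := (1 - ε') * (2 * ℒ * r / Real.pi)) (s := 1) (fun _ => 1) (fun _ => 1) N
    (fun _ _ => zero_le_one)
    (by
      intro j hj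
      have hj' : (j : ℝ) + 1 ≤ N := by exact_mod_cast hj
      have hj0 : (0 : ℝ) ≤ j := Nat.cast_nonneg j
      have h0 : (2 * (j : ℝ) + 1) * r ≤ 1 / 2 := by nlinarith
      have h00 : 0 ≤ (2 * (j : ℝ) + 1) * r := by positivity
      have h1 : |-(1 / 4) + (2 * (j : ℝ) + 1) * r| ≤ 2 := by
        rw [abs_le]
        constructor <;> linarith
      obtain ⟨S', hS1, hS2⟩ := hτ (-(1 / 4) + (2 * (j : ℝ) + 1) * r) h1
      refine ⟨S', ?_, hS2⟩
      intro y hy
      obtain ⟨b1, b2, b3⟩ := hS1 y hy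
      refine ⟨by linarith, by linarith, b3⟩)
    (fun _ _ _ _ _ => le_rfl) hr
  refine ⟨L, ?_, ?_⟩
  · intro y hy
    obtain ⟨b1, b2, b3⟩ := hL1 y hy
    rw [one_mul] at b1 b2
    exact ⟨by linarith, by linarith, b3⟩
  · rw [Finset.sum_const, Finset.sum_const, Finset.card_range, nsmul_eq_mul, nsmul_eq_mul,
      mul_one, mul_one] at hL2
    refine le_trans ?_ hL2
    have e1 : (N : ℝ) * ((1 - ε') * (2 * ℒ * r / Real.pi)) =
        ((1 - ε') * ((N : ℝ) * (4 * r))) * (ℒ / (2 * Real.pi)) := by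
      field_simp
      ring
    rw [e1]
    apply mul_le_mul_of_nonneg_right _ (by positivity)
    have h1 : 1 - 4 * r ≤ (N : ℝ) * (4 * r) := by linarith
    have h2 : 0 ≤ 1 - ε' := by linarith
    have h3 := mul_le_mul_of_nonneg_left h1 h2
    nlinarith

/-- few zeros off the line -/
theorem off_few {F : ℂ → ℂ} {ℒ Γ r ε ε' T : ℝ} (hFd : Differentiable ℂ F) (hℒp : 1 ≤ ℒ)
    (hΓ1p : 0 < Γ) (hε'0 : 0 < ε') (hε'1 : ε' ≤ 1) (hε'2 : ε' * 16 ≤ ε) {N : ℕ}
    (hNs : (1 - ε') * ((N : ℝ) + 1) ≤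
      ∑ j ∈ Finset.range N, Real.log (((N : ℝ) + 1) / ((j : ℝ) + 2)))
    (hr0' : 0 < r) (hrr1 : r ≤ 1 / 20) (hRr : (2 : ℝ) = 2 * ((N : ℝ) + 1) * r)
    (hup : ∀ z : ℂ, |z.re| ≤ 5 / 2 → |z.im - T| ≤ 5 / 2 →
      ‖F z‖ ≤ Γ * Real.exp (ℒ * (|z.re| + ε' * r)))
    (hτ : ∀ τ : ℝ, |τ - T| ≤ 2 →
      (∃ w0 : ℂ, r / 4 ≤ w0.re ∧ |w0.im| ≤ r / 4 ∧ ‖w0‖ ≤ r ∧
        Γ * Real.exp (ℒ * (w0.re - ε' * r)) ≤ ‖F ((τ : ℂ) * I + w0)‖) ∧
      ∃ S : Finset ℝ, (∀ y ∈ S, τ - r < y ∧ y < τ + r ∧ F ((y : ℂ) * I) = 0) ∧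
        (1 - ε') * (2 * ℒ * r / Real.pi) ≤ (S.card : ℝ)) :
    ∀ S : Finset ℂ, (∀ z ∈ S, F z = 0 ∧ |z.re| ≤ 1 / 2 ∧ |z.im - T| ≤ 1 / 4) →
      ∑ z ∈ S, ((analyticOrderNatAt F z : ℝ) - if z.re = 0 then 1 else 0) ≤ ε * ℒ := by
  classical
  intro S hS
  have hπ := Real.pi_pos
  have hπ3 := Real.pi_gt_three
  have hNr : (0 : ℝ) < N + 1 := by positivity
  obtain ⟨⟨w0, hw1, hw2, hw3, hw4⟩, -⟩ := hτ T (by rw [sub_self, abs_zero]; norm_num)
  set cc : ℂ := (T : ℂ) * I + w0 with hcc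
  have hccre : cc.re = w0.re := by simp [hcc]
  have hccim : cc.im = T + w0.im := by simp [hcc]
  have hw0re : 0 < w0.re := by linarith
  have hw0re1 : w0.re ≤ r := (re_le_norm w0).trans hw3
  -- Jensen
  obtain ⟨Z, hZ, hJ⟩ := jen_all hFd (C := cc) (R := 2)
    (B := Γ * Real.exp (ℒ * (w0.re + ε' * r)))
    (b := Γ * Real.exp (ℒ * (w0.re - ε' * r))) (ℒ := ℒ) (by norm_num) (by positivity)
    (by linarith)
    (by
      intro z hz
      have h1 : |z.re| ≤ 2 := (abs_re_le_norm z).trans hz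
      have h2 : |z.im| ≤ 2 := (abs_im_le_norm z).trans hz
      have e1 : (cc + z).re = w0.re + z.re := by rw [add_re, hccre]
      have e2 : (cc + z).im - T = w0.im + z.im := by rw [add_im, hccim]; ring
      have h3 : |w0.re + z.re| ≤ w0.re + |z.re| := by
        refine (abs_add_le _ _).trans ?_
        rw [abs_of_pos hw0re]
      have h4 := hup (cc + z) (by
        rw [e1]
        linarith) (by
        rw [e2]
        refine (abs_add_le _ _).trans ?_
        linarith)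
      refine h4.trans ?_
      rw [e1, mul_assoc Γ, ← Real.exp_add]
      apply mul_le_mul_of_nonneg_left _ hΓ1p.le
      apply Real.exp_le_exp.mpr
      nlinarith)
    hw4
  have hlogBb : Real.log (Γ * Real.exp (ℒ * (w0.re + ε' * r)) /
      (Γ * Real.exp (ℒ * (w0.re - ε' * r)))) = ℒ * (2 * (ε' * r)) := by
    rw [mul_div_mul_left _ _ hΓ1p.ne', ← Real.exp_sub, Real.log_exp]
    ring
  rw [hlogBb] at hJ
  have hFcc : F cc ≠ 0 := by
    rw [← norm_pos_iff]
    exact lt_of_lt_of_le (by positivity) hw4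
  -- weights
  set wt : ℂ → ℝ := fun z => Real.log (2 / ‖z - cc‖) with hwt
  have hwt0 : ∀ z ∈ Z, 0 ≤ wt z := by
    intro z hz
    have h1 := ((hZ z).mp hz).1
    exact Pool.Agent.TH804.DL.log_div_nonneg h1
  have hline : ∀ s : ℝ, (s = 1 ∨ s = -1) → ∃ L : Finset ℝ, (∀ y ∈ L, 0 < s * (y - T) ∧
      s * (y - T) < 2 * (N : ℝ) * r ∧ F ((y : ℂ) * I) = 0) ∧
      (1 - ε') * (2 * ℒ * r / Real.pi) * ((1 - ε') * ((N : ℝ) + 1)) ≤
        ∑ y ∈ L, wt ((y : ℂ) * I) := by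
    intro s hs
    have hs2 : s * s = 1 := by rcases hs with h | h <;> rw [h] <;> norm_num
    have habs : |s| = 1 := by rcases hs with h | h <;> rw [h] <;> simp
    obtain ⟨L, hL1, hL2⟩ := collect (Q := fun y => F ((y : ℂ) * I) = 0) (T := T) (r := r)
      (n := (1 - ε') * (2 * ℒ * r / Real.pi)) (s := s) (fun y => wt ((y : ℂ) * I))
      (fun j => Real.log (((N : ℝ) + 1) / ((j : ℝ) + 2))) N
      (by
        intro j hj
        apply Real.log_nonneg
        rw [one_le_div (by positivity)]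
        have : (j : ℝ) + 1 ≤ N := by exact_mod_cast hj
        linarith)
      (by
        intro j hj
        have hj' : (j : ℝ) + 1 ≤ N := by exact_mod_cast hj
        have hj0 : (0 : ℝ) ≤ j := Nat.cast_nonneg j
        have h1 : |T + s * ((2 * (j : ℝ) + 1) * r) - T| ≤ 2 := by
          rw [add_sub_cancel_left, abs_mul, habs, one_mul, abs_of_nonneg (by positivity)]
          have h0 : (2 * (j : ℝ) + 1) * r ≤ 2 * ((N : ℝ) + 1) * r :=
            mul_le_mul_of_nonneg_right (by linarith) hr0'.le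
          linarith
        obtain ⟨-, S', hS1, hS2⟩ := hτ (T + s * ((2 * (j : ℝ) + 1) * r)) h1
        refine ⟨S', ?_, hS2⟩
        intro y hy
        obtain ⟨b1, b2, b3⟩ := hS1 y hy
        refine ⟨?_, ?_, b3⟩
        · rcases hs with h | h
          · rw [h] at b1 ⊢
            linarith
          · rw [h] at b2 ⊢
            linarith
        · rcases hs with h | h
          · rw [h] at b2 ⊢
            linarith
          · rw [h] at b1 ⊢
            linarith)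
      (by
        intro y j hj h1 h2
        simp only [hwt]
        have hj0 : (0 : ℝ) ≤ j := Nat.cast_nonneg j
        have e : (y : ℂ) * I - cc = ((y - T : ℝ) : ℂ) * I - w0 := by
          rw [hcc]; push_cast; ring
        have h3 : |y - T| = s * (y - T) := by
          have : 0 < s * (y - T) := lt_of_le_of_lt (by positivity) h1
          rw [← abs_of_pos this, abs_mul, habs, one_mul]
        have h4 : ‖(y : ℂ) * I - cc‖ ≤ 2 * ((j : ℝ) + 2) * r := by
          rw [e]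
          refine (norm_sub_le _ _).trans ?_
          rw [norm_mul, Complex.norm_I, mul_one, Complex.norm_real, Real.norm_eq_abs, h3]
          linarith
        have h5 : 0 < ‖(y : ℂ) * I - cc‖ := by
          have h6 := abs_re_le_norm ((y : ℂ) * I - cc)
          have h7 : ((y : ℂ) * I - cc).re = -w0.re := by simp [hccre]
          rw [h7, abs_neg, abs_of_pos hw0re] at h6
          linarith
        apply Real.log_le_log (by positivity)
        calc ((N : ℝ) + 1) / ((j : ℝ) + 2) = (2 * ((N : ℝ) + 1) * r) / (2 * ((j : ℝ) + 2) * r) := by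
              field_simp
          _ = 2 / (2 * ((j : ℝ) + 2) * r) := by rw [← hRr]
          _ ≤ 2 / ‖(y : ℂ) * I - cc‖ :=
              div_le_div_of_nonneg_left (by norm_num) h5 h4)
      hr0'
    refine ⟨L, hL1, le_trans ?_ hL2⟩
    rw [← Finset.mul_sum]
    apply mul_le_mul_of_nonneg_left hNs
    have : 0 ≤ 1 - ε' := by linarith
    positivity
  obtain ⟨L1, hL11, hL12⟩ := hline 1 (Or.inl rfl)
  obtain ⟨L2, hL21, hL22⟩ := hline (-1) (Or.inr rfl)
  have hdisj : Disjoint L1 L2 := by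
    rw [Finset.disjoint_left]
    intro y h1 h2
    have h3 := (hL11 y h1).1
    have h4 := (hL21 y h2).1
    linarith
  set L := (L1 ∪ L2).image (fun y : ℝ => (y : ℂ) * I) with hL
  have hLsum : 2 * ((1 - ε') * (2 * ℒ * r / Real.pi) * ((1 - ε') * ((N : ℝ) + 1))) ≤
      ∑ z ∈ L, wt z := by
    rw [hL, Finset.sum_image (fun a _ b _ h => by
      have h2 := mul_right_cancel₀ I_ne_zero h
      exact_mod_cast h2), Finset.sum_union hdisj]
    linarith
  have hLZ : L ⊆ Z.filter (fun z => z.re = 0) := by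
    intro z hz
    rw [hL, Finset.mem_image] at hz
    obtain ⟨y, hy, rfl⟩ := hz
    rw [Finset.mem_filter, hZ]
    have h1 : |y - T| < 2 * (N : ℝ) * r ∧ F ((y : ℂ) * I) = 0 := by
      rcases Finset.mem_union.mp hy with h | h
      · obtain ⟨b1, b2, b3⟩ := hL11 y h
        rw [one_mul] at b1 b2
        exact ⟨by rw [abs_of_pos b1]; exact b2, b3⟩
      · obtain ⟨b1, b2, b3⟩ := hL21 y h
        refine ⟨?_, b3⟩
        rw [abs_of_neg (by linarith)]
        linarith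
    refine ⟨⟨?_, h1.2⟩, by simp⟩
    have e : (y : ℂ) * I - cc = ((y - T : ℝ) : ℂ) * I - w0 := by
      rw [hcc]; push_cast; ring
    rw [e]
    refine (norm_sub_le _ _).trans ?_
    rw [norm_mul, Complex.norm_I, mul_one, Complex.norm_real, Real.norm_eq_abs]
    linarith [h1.1]
  -- the final count
  have hord : ∀ z ∈ Z, 0 ≤ (analyticOrderNatAt F z : ℝ) - if z.re = 0 then 1 else 0 := by
    intro z hz
    have h1 := order_ge_one hFd hFcc ((hZ z).mp hz).2
    have h2 : (1 : ℝ) ≤ (analyticOrderNatAt F z : ℝ) := by exact_mod_cast h1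
    split_ifs <;> linarith
  have hle : ∀ z ∈ S, ‖z - cc‖ ≤ 2 / 3 := by
    intro z hz
    obtain ⟨h1, h2, h3⟩ := hS z hz
    have e : z - cc = ((z.re : ℂ) + ((z.im - T : ℝ) : ℂ) * I) - w0 := by
      rw [hcc]
      apply Complex.ext
      · simp
      · simp
        ring
    rw [e]
    refine (norm_sub_le _ _).trans ?_
    have h7 : ‖(z.re : ℂ) + ((z.im - T : ℝ) : ℂ) * I‖ ≤ 3 / 5 := by
      rw [Complex.norm_add_mul_I]
      apply Real.sqrt_le_iff.mpr
      refine ⟨by norm_num, ?_⟩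
      have h4 : z.re ^ 2 ≤ (1 / 2) ^ 2 := by
        rw [← sq_abs z.re]
        exact pow_le_pow_left₀ (abs_nonneg _) h2 2
      have h5 : (z.im - T) ^ 2 ≤ (1 / 4) ^ 2 := by
        rw [← sq_abs (z.im - T)]
        exact pow_le_pow_left₀ (abs_nonneg _) h3 2
      nlinarith
    linarith
  have hSZ : S ⊆ Z := by
    intro z hz
    obtain ⟨h1, h2, h3⟩ := hS z hz
    rw [hZ]
    exact ⟨(hle z hz).trans (by norm_num), h1⟩
  have hw1' : ∀ z ∈ S, 1 ≤ wt z := by
    intro z hz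
    obtain ⟨h1, h2, h3⟩ := hS z hz
    have hpos : 0 < ‖z - cc‖ := by
      rw [norm_pos_iff, sub_ne_zero]
      rintro rfl
      exact hFcc h1
    have h8 : (3 : ℝ) ≤ 2 / ‖z - cc‖ := by
      rw [le_div_iff₀ hpos]
      have := hle z hz
      linarith
    have h9 : Real.exp 1 ≤ 3 := by
      have := Real.exp_one_lt_d9
      linarith
    have h10 := Real.log_le_log (Real.exp_pos 1) (h9.trans h8)
    rwa [Real.log_exp] at h10
  have hfin1 : ∑ z ∈ S, ((analyticOrderNatAt F z : ℝ) - if z.re = 0 then 1 else 0) ≤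
      ∑ z ∈ S, ((analyticOrderNatAt F z : ℝ) - if z.re = 0 then 1 else 0) * wt z := by
    refine Finset.sum_le_sum fun z hz => ?_
    have h1 := hord z (hSZ hz)
    have h2 := hw1' z hz
    nlinarith
  have hfin2 : ∑ z ∈ S, ((analyticOrderNatAt F z : ℝ) - if z.re = 0 then 1 else 0) * wt z ≤
      ∑ z ∈ Z, ((analyticOrderNatAt F z : ℝ) - if z.re = 0 then 1 else 0) * wt z :=
    Finset.sum_le_sum_of_subset_of_nonneg hSZ fun z hz _ => mul_nonneg (hord z hz) (hwt0 z hz)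
  have hfin3 : ∑ z ∈ Z, ((analyticOrderNatAt F z : ℝ) - if z.re = 0 then 1 else 0) * wt z =
      ∑ z ∈ Z, (analyticOrderNatAt F z : ℝ) * wt z -
        ∑ z ∈ Z.filter (fun z => z.re = 0), wt z := by
    rw [Finset.sum_filter, ← Finset.sum_sub_distrib]
    refine Finset.sum_congr rfl fun z _ => ?_
    split_ifs <;> ring
  have hfin4 : ∑ z ∈ L, wt z ≤ ∑ z ∈ Z.filter (fun z => z.re = 0), wt z :=
    Finset.sum_le_sum_of_subset_of_nonneg hLZ fun z hz _ =>
      hwt0 z (Finset.mem_filter.mp hz).1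
  have hV : 2 * ((1 - ε') * (2 * ℒ * r / Real.pi) * ((1 - ε') * ((N : ℝ) + 1))) =
      (1 - ε') ^ 2 * (2 * 2 / Real.pi * ℒ) := by
    have e : 2 * ((1 - ε') * (2 * ℒ * r / Real.pi) * ((1 - ε') * ((N : ℝ) + 1))) =
        (1 - ε') ^ 2 * (2 * (2 * ((N : ℝ) + 1) * r) / Real.pi * ℒ) := by ring
    rw [e, ← hRr]
  rw [hV] at hLsum
  have hq : 0 ≤ 2 * 2 / Real.pi * ℒ := by positivity
  have hq2 : 2 * 2 / Real.pi * ℒ ≤ 2 * ℒ := by
    apply mul_le_mul_of_nonneg_right _ (by linarith)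
    rw [div_le_iff₀ hπ]
    nlinarith
  have hμ2 : ℒ * (2 * (ε' * r)) ≤ 2 * (ε' * (2 * ℒ)) := by
    have h2 : ε' * r ≤ ε' * 2 := mul_le_mul_of_nonneg_left (by linarith) hε'0.le
    calc ℒ * (2 * (ε' * r)) ≤ ℒ * (2 * (ε' * 2)) :=
          mul_le_mul_of_nonneg_left (by linarith) (by linarith)
      _ = _ := by ring
  have hfin5 : (1 - (1 - ε') ^ 2) * (2 * 2 / Real.pi * ℒ) ≤ 2 * (ε' * (2 * ℒ)) := by
    have h1 : 1 - (1 - ε') ^ 2 ≤ 2 * ε' := by nlinarith
    calc (1 - (1 - ε') ^ 2) * (2 * 2 / Real.pi * ℒ) ≤ (2 * ε') * (2 * 2 / Real.pi * ℒ) :=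
          mul_le_mul_of_nonneg_right h1 hq
      _ ≤ (2 * ε') * (2 * ℒ) := mul_le_mul_of_nonneg_left hq2 (by positivity)
      _ = _ := by ring
  have hfin6 : 4 * (ε' * (2 * ℒ)) ≤ ε * ℒ := by
    calc 4 * (ε' * (2 * ℒ)) = (ε' * 8) * ℒ := by ring
      _ ≤ ε * ℒ := by
          apply mul_le_mul_of_nonneg_right _ (by linarith)
          linarith
  have hJ' : ∑ z ∈ Z, (analyticOrderNatAt F z : ℝ) * wt z ≤
      ℒ * (2 * (ε' * r)) + 2 * 2 / Real.pi * ℒ := hJ
  linarith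

end Pool.Agent.H788.AV

namespace Pool.Agent.H606.AV

theorem S_OFF_proof : S_OFF := by
  intro ε hε
  set ε' : ℝ := min 1 (ε / 16) with hε'
  have hε'0 : 0 < ε' := lt_min one_pos (by positivity)
  have hε'1 : ε' ≤ 1 := min_le_left _ _
  have hε'2 : ε' * 16 ≤ ε := by
    rw [← le_div_iff₀ (by positivity)]
    exact min_le_right _ _
  refine ⟨ε', hε'0, hε'1, fun r1 hr1 => ?_⟩
  set r2 : ℝ := min (min r1 (1 / 20)) (ε / 8) with hr2
  have hr20 : 0 < r2 := lt_min (lt_min hr1 (by norm_num)) (by positivity)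
  obtain ⟨N, hN0, hN1, hNs⟩ := Pool.Agent.H466.LD.seg_sum hε'0 ⌈1 / r2⌉₊
  have hNr : (0 : ℝ) < N + 1 := by positivity
  have hr0 : (0 : ℝ) < 1 / ((N : ℝ) + 1) := by positivity
  have hrr : 1 / ((N : ℝ) + 1) ≤ r2 := by
    rw [div_le_iff₀ (by positivity)]
    have h1 : 1 / r2 ≤ N := (Nat.le_ceil _).trans (by exact_mod_cast hN0)
    rw [div_le_iff₀ (by positivity)] at h1
    nlinarith
  have hrr1 : 1 / ((N : ℝ) + 1) ≤ r1 := hrr.trans ((min_le_left _ _).trans (min_le_left _ _))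
  have hrr2 : 1 / ((N : ℝ) + 1) ≤ 1 / 20 := hrr.trans ((min_le_left _ _).trans (min_le_right _ _))
  have hrr3 : 1 / ((N : ℝ) + 1) ≤ ε / 8 := hrr.trans (min_le_right _ _)
  have hRr : (2 : ℝ) = 2 * ((N : ℝ) + 1) * (1 / ((N : ℝ) + 1)) := by
    field_simp
  refine ⟨1 / ((N : ℝ) + 1), hr0, hrr1, ?_⟩
  intro F ℒ Γ hFd hℒ hΓ hup hτ
  refine ⟨?_, ?_⟩
  · intro S hS
    exact Pool.Agent.H788.AV.off_few (T := 0) hFd hℒ hΓ hε'0 hε'1 hε'2 hNs hr0 hrr2 hRr
      (fun z h1 h2 => hup z h1 (by rwa [sub_zero] at h2))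
      (fun τ h => hτ τ (by rwa [sub_zero] at h)) S
      (fun z hz => by
        rw [sub_zero]
        exact hS z hz)
  · exact Pool.Agent.H788.AV.off_line hℒ hr0 hε'1 (by linarith) hrr3 hrr2
      (fun τ h => (hτ τ h).2)

end Pool.Agent.H606.AV

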